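import Pool.Agent.H122.ME.WienBK

/-! ME-WIENB: the lower bound of the averaged second moment by a simple eigenvector. -/

set_option autoImplicit false

open scoped BigOperators InnerProductSpace Topology ENNReal
open Filter MeasureTheory

namespace Pool.Agent.H122.ME

open Pool.Agent.Y662.TR (LL dv inner_dv ll_sum ll_summable ll_coord)
open Pool.Agent.TH369.AN (Rz rz_eq rz_uniq rz_norm)
open Pool.Agent.TH369.MU (SpM ep zk qk spm_exists)
open Pool.Agent.H987.Z
open Pool.Agent.H121.Z987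
open Pool.Agent.H121.ME (Qw S_wienB)
open Pool.Agent.H717.Z987
open Pool.Agent.W883.LL (P P_nonneg P_le P_cauchy P_integral P_integrable P_cont)

variable {ι : Type}

theorem rz_add (T : LL ι →L[ℂ] LL ι) (z : ℂ) (u v : LL ι) : Rz T z (u + v) = Rz T z u + Rz T z v :=
  map_add _ _ _

theorem zk_re_im (t : ℝ) (k : ℕ) : (zk t k).im = ep k := by
  unfold zk
  simp

theorem zk_sub (t : ℝ) (k : ℕ) : zk t k - (t : ℂ) = Complex.I * (ep k : ℂ) := by
  unfold zk
  ring

/-- on the closure of the range of `T - t` the resolvents are small -/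
theorem rz_small (T : LL ι →L[ℂ] LL ι) (hT : IsSelfAdjoint T) (t : ℝ) (v : LL ι)
    (hv : ∀ δ : ℝ, 0 < δ → ∃ w : LL ι, ‖v - (T w - (t : ℂ) • w)‖ < δ) :
    Tendsto (fun k => ep k * ‖Rz T (zk t k) v‖) atTop (𝓝 0) := by
  rw [Metric.tendsto_atTop]
  intro δ hδ
  obtain ⟨w, hw⟩ := hv (δ / 2) (by linarith)
  have h1 : Tendsto (fun k => 2 * ‖w‖ * ep k) atTop (𝓝 0) := by
    simpa using ep_lim.const_mul (2 * ‖w‖)
  rw [Metric.tendsto_atTop] at h1
  obtain ⟨N, hN⟩ := h1 (δ / 2) (by linarith)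
  refine ⟨N, fun k hk => ?_⟩
  have h2 := hN k hk
  have hε := ep_pos' k
  rw [Real.dist_eq, sub_zero, abs_of_nonneg (by positivity)] at h2 ⊢
  have hz : (zk t k).im ≠ 0 := Pool.Agent.H717.Z987.zk_im t k
  have hn : ∀ φ : LL ι, ep k * ‖Rz T (zk t k) φ‖ ≤ ‖φ‖ := by
    intro φ
    have := rz_norm T hT (zk t k) hz φ
    rw [zk_re_im, abs_of_pos hε, le_div_iff₀ hε] at this
    linarith
  obtain ⟨r, hr⟩ : ∃ r, r = v - (T w - (t : ℂ) • w) := ⟨_, rfl⟩
  rw [← hr] at hw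
  have h3 : v = r + ((T w - zk t k • w) + (Complex.I * (ep k : ℂ)) • w) := by
    rw [hr, ← zk_sub t k, sub_smul]
    abel
  have h4 : Rz T (zk t k) (T w - zk t k • w) = w :=
    (rz_uniq T hT (zk t k) hz w _ rfl).symm
  have h5 : Rz T (zk t k) v = Rz T (zk t k) r + (w + (Complex.I * (ep k : ℂ)) • Rz T (zk t k) w) := by
    conv_lhs => rw [h3]
    rw [rz_add, rz_add, h4, map_smul]
  have h6 : ‖Rz T (zk t k) v‖ ≤ ‖Rz T (zk t k) r‖ + (‖w‖ + ep k * ‖Rz T (zk t k) w‖) := by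
    rw [h5]
    refine (norm_add_le _ _).trans (add_le_add le_rfl ((norm_add_le _ _).trans
      (add_le_add le_rfl (le_of_eq ?_))))
    rw [norm_smul, norm_mul, Complex.norm_I, one_mul, Complex.norm_real, Real.norm_of_nonneg hε.le]
  have h7 := hn r
  have h8 := hn w
  have h9 : ep k * ‖Rz T (zk t k) v‖ ≤ ‖r‖ + ep k * (2 * ‖w‖) := by
    calc ep k * ‖Rz T (zk t k) v‖
        ≤ ep k * (‖Rz T (zk t k) r‖ + (‖w‖ + ep k * ‖Rz T (zk t k) w‖)) :=
          mul_le_mul_of_nonneg_left h6 hε.le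
      _ = ep k * ‖Rz T (zk t k) r‖ + ep k * (‖w‖ + ep k * ‖Rz T (zk t k) w‖) := by ring
      _ ≤ ‖r‖ + ep k * (2 * ‖w‖) := by
          refine add_le_add h7 (mul_le_mul_of_nonneg_left ?_ hε.le)
          linarith
  linarith

/-- the orthogonal complement of a simple eigenvector -/
theorem perp_range (T : LL ι →L[ℂ] LL ι) (hT : IsSelfAdjoint T) (t : ℝ) (u : LL ι)
    (hs : ∀ v : LL ι, T v = (t : ℂ) • v → ∃ a : ℂ, v = a • u) (v : LL ι) (hv : ⟪u, v⟫_ℂ = 0) :
    ∀ δ : ℝ, 0 < δ → ∃ w : LL ι, ‖v - (T w - (t : ℂ) • w)‖ < δ := by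
  obtain ⟨A, hA⟩ : ∃ A : LL ι →L[ℂ] LL ι, A = T - (t : ℂ) • ContinuousLinearMap.id ℂ (LL ι) := ⟨_, rfl⟩
  have hAa : ∀ w, A w = T w - (t : ℂ) • w := by
    intro w
    rw [hA]
    rfl
  have hAs : ContinuousLinearMap.adjoint A = A := by
    refine ((ContinuousLinearMap.eq_adjoint_iff A A).2 fun a b => ?_).symm
    have h1 : ⟪T a, b⟫_ℂ = ⟪a, T b⟫_ℂ := by
      have := ContinuousLinearMap.adjoint_inner_left T b a
      rwa [ContinuousLinearMap.isSelfAdjoint_iff'.1 hT] at this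
    rw [hAa, hAa, inner_sub_left, inner_sub_right, inner_smul_left, inner_smul_right, h1,
      Complex.conj_ofReal]
  have h1 := ContinuousLinearMap.orthogonal_ker A
  rw [hAs] at h1
  have h2 : v ∈ (LinearMap.ker (A : LL ι →ₗ[ℂ] LL ι))ᗮ := by
    rw [Submodule.mem_orthogonal]
    intro w hw
    have h3 : T w = (t : ℂ) • w := by
      have h4 : A w = 0 := hw
      rw [hAa] at h4
      exact sub_eq_zero.1 h4
    obtain ⟨a, rfl⟩ := hs w h3
    rw [inner_smul_left, hv, mul_zero]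
  have h3 : v ∈ closure (LinearMap.range (A : LL ι →ₗ[ℂ] LL ι) : Set (LL ι)) := by
    have h4 : v ∈ (LinearMap.range (A : LL ι →ₗ[ℂ] LL ι)).topologicalClosure := by
      rw [← h1]
      exact h2
    exact h4
  intro δ hδ
  obtain ⟨y, ⟨w, hw⟩, hy⟩ := Metric.mem_closure_iff.1 h3 δ hδ
  refine ⟨w, ?_⟩
  rw [← hAa]
  have h5 : A w = y := hw
  rw [h5, ← dist_eq_norm]
  exact hy

/-- the coefficient of the pole -/
theorem gr_pole (T : LL ι →L[ℂ] LL ι) (hT : IsSelfAdjoint T) (x y : ι) (t : ℝ) (u : LL ι)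
    (hu : T u = (t : ℂ) • u) (hu0 : u ≠ 0)
    (hs : ∀ v : LL ι, T v = (t : ℂ) • v → ∃ a : ℂ, v = a • u) :
    Tendsto (fun k => -(Complex.I * (ep k : ℂ)) * Gr T (zk t k) x y) atTop
      (𝓝 ((starRingEnd ℂ) (u y) / (‖u‖ : ℂ) ^ 2 * u x)) := by
  have hn : (‖u‖ : ℂ) ≠ 0 := by
    exact_mod_cast norm_ne_zero_iff.2 hu0
  obtain ⟨a, ha⟩ : ∃ a : ℂ, a = (starRingEnd ℂ) (u y) / (‖u‖ : ℂ) ^ 2 := ⟨_, rfl⟩
  obtain ⟨v, hv⟩ : ∃ v : LL ι, v = dv y - a • u := ⟨_, rfl⟩
  rw [← ha]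
  have h1 : ⟪u, v⟫_ℂ = 0 := by
    have h2 : ⟪u, dv y⟫_ℂ = (starRingEnd ℂ) (u y) := by
      rw [← inner_dv y u]
      exact (inner_conj_symm _ _).symm
    rw [hv, inner_sub_right, inner_smul_right, h2, inner_self_eq_norm_sq_to_K, ha]
    have h3 : ((RCLike.ofReal ‖u‖ : ℂ)) = (‖u‖ : ℂ) := rfl
    rw [h3, div_mul_cancel₀ _ (pow_ne_zero 2 hn), sub_self]
  have h2 := rz_small T hT t v (perp_range T hT t u hs v h1)
  have h3 : ∀ k, -(Complex.I * (ep k : ℂ)) * Gr T (zk t k) x y =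
      a * u x + -(Complex.I * (ep k : ℂ)) * Rz T (zk t k) v x := by
    intro k
    have hz : (zk t k).im ≠ 0 := Pool.Agent.H717.Z987.zk_im t k
    have he : (Complex.I * (ep k : ℂ)) ≠ 0 := by
      have : (ep k : ℂ) ≠ 0 := by exact_mod_cast (ep_pos' k).ne'
      exact mul_ne_zero Complex.I_ne_zero this
    have h4 : dv y = a • u + v := by rw [hv]; abel
    have h5 : Rz T (zk t k) (a • u) = (a / -(Complex.I * (ep k : ℂ))) • u := by
      refine (rz_uniq T hT (zk t k) hz _ _ ?_).symm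
      rw [map_smul, hu, ← zk_sub t k, smul_smul, smul_smul, ← sub_smul]
      congr 1
      rw [← zk_sub t k] at he
      have he2 : -(zk t k - (t : ℂ)) ≠ 0 := neg_ne_zero.2 he
      field_simp
      ring
    have h6 : Gr T (zk t k) x y = (a / -(Complex.I * (ep k : ℂ))) * u x + Rz T (zk t k) v x := by
      unfold Gr
      rw [h4, rz_add, h5]
      rfl
    rw [h6, mul_add, ← mul_assoc, mul_div_cancel₀ _ (neg_ne_zero.2 he)]
  simp_rw [h3]
  have h4 : Tendsto (fun k => -(Complex.I * (ep k : ℂ)) * Rz T (zk t k) v x) atTop (𝓝 0) := by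
    rw [tendsto_zero_iff_norm_tendsto_zero]
    refine squeeze_zero (fun k => norm_nonneg _) (fun k => ?_) h2
    rw [norm_mul, norm_neg, norm_mul, Complex.norm_I, one_mul, Complex.norm_real,
      Real.norm_of_nonneg (ep_pos' k).le]
    exact mul_le_mul_of_nonneg_left (ll_coord _ x) (ep_pos' k).le
  simpa using h4.const_add (a * u x)

theorem int_aux (μ : Measure ℝ) (f g h : ℝ → ℝ) (c d : ℝ) (hf : Integrable f μ)
    (hg : Integrable g μ) (hh : Integrable h μ) :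
    ∫ E, (c * (f E - g E) / 4 - d * h E) ∂μ =
      c * ((∫ E, f E ∂μ) - ∫ E, g E ∂μ) / 4 - d * ∫ E, h E ∂μ := by
  have h1 : Integrable (fun E => f E - g E) μ := hf.sub hg
  rw [integral_sub ((h1.const_mul c).div_const 4) (hh.const_mul _), integral_div,
    integral_const_mul, integral_const_mul, integral_sub hf hg]

/-- **ME-WIENB** -/
theorem wienB : S_wienB := by
  intro w hc h0 hw ι _ T hT x y t u hu hu0 hs
  have := Qw_fin hw
  obtain ⟨mp, hp, -⟩ := spm_exists T hT.sa (dv x + dv y)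
  obtain ⟨mn, hn, -⟩ := spm_exists T hT.sa (dv x - dv y)
  have := hp.1
  have := hn.1
  obtain ⟨n, hndef⟩ : ∃ n : ℝ, n = (mp.real {t} - mn.real {t}) / 4 := ⟨_, rfl⟩
  -- the value of `n`
  have hnv : (n : ℂ) = (starRingEnd ℂ) (u y) / (‖u‖ : ℂ) ^ 2 * u x := by
    have e1 := ((Fm_atom mp t).sub (Fm_atom mn t)).div_const 4
    have e2 : ∀ k, (-(Complex.I * (ep k : ℂ)) * Fm mp (ep k) t -
        -(Complex.I * (ep k : ℂ)) * Fm mn (ep k) t) / 4 =
        -(Complex.I * (ep k : ℂ)) * Gr T (zk t k) x y := by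
      intro k
      have := pol T hT x y mp mn hp hn t k
      rw [← mul_sub, ← this]
      ring
    simp_rw [e2] at e1
    have e3 := tendsto_nhds_unique e1 (gr_pole T hT.sa x y t u hu hu0 hs)
    rw [← e3, hndef]
    push_cast
    ring
  have hn2 : n ^ 2 = ‖u x‖ ^ 2 * ‖u y‖ ^ 2 / ‖u‖ ^ 4 := by
    have h1 := congrArg (fun z : ℂ => ‖z‖ ^ 2) hnv
    simp only [Complex.norm_real, Real.norm_eq_abs, sq_abs] at h1
    rw [h1, norm_mul, norm_div, RCLike.norm_conj, norm_pow, Complex.norm_real, norm_norm]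
    ring
  -- the lower bound
  obtain ⟨L, hL⟩ : ∃ L : ℕ → ℝ, L = fun k => 2 * n * ((∫ E, (ep k : ℂ) * (Fm mp (ep k) E *
      (starRingEnd ℂ) (kp (ep k) t E)) ∂(Qw w)).re - (∫ E, (ep k : ℂ) * (Fm mn (ep k) E *
      (starRingEnd ℂ) (kp (ep k) t E)) ∂(Qw w)).re) / 4 - n ^ 2 * ∫ E, P t (ep k) E ∂(Qw w) :=
    ⟨_, rfl⟩
  have hLlim : Tendsto L atTop (𝓝 (Real.pi * w t * (‖u x‖ ^ 2 * ‖u y‖ ^ 2 / ‖u‖ ^ 4))) := by
    have e1 := (Complex.continuous_re.tendsto _).comp (one_pole hc h0 hw mp t)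
    have e2 := (Complex.continuous_re.tendsto _).comp (one_pole hc h0 hw mn t)
    have e3 := ((((e1.sub e2).const_mul (2 * n)).div_const 4)).sub
      ((P_Qw_lim hc h0 hw t).const_mul (n ^ 2))
    have h5 : mp.real {t} - mn.real {t} = 4 * n := by rw [hndef]; ring
    have h6 : Real.pi * w t * mp.real {t} - Real.pi * w t * mn.real {t} =
        Real.pi * w t * (4 * n) := by rw [← h5]; ring
    have h7 : Real.pi * w t * (‖u x‖ ^ 2 * ‖u y‖ ^ 2 / ‖u‖ ^ 4) =
        2 * n * ((((Real.pi * w t * mp.real {t} : ℝ) : ℂ)).re -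
          (((Real.pi * w t * mn.real {t} : ℝ) : ℂ)).re) / 4 - n ^ 2 * (Real.pi * w t) := by
      rw [← hn2, Complex.ofReal_re, Complex.ofReal_re, h6]
      ring
    rw [hL, h7]
    exact e3
  have hI : ∀ (α : Measure ℝ) [IsFiniteMeasure α] (k : ℕ),
      Integrable (fun E => (ep k : ℂ) * (Fm α (ep k) E * (starRingEnd ℂ) (kp (ep k) t E))) (Qw w) := by
    intro α _ k
    have hε := ep_pos' k
    refine Integrable.of_bound (C := ep k * ((1 / ep k * α.real Set.univ) *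
      (1 / ep k))) ?_ (Eventually.of_forall fun E => ?_)
    · exact (stronglyMeasurable_const.mul ((Fm_meas α _ hε).mul
        (Complex.continuous_conj.comp_stronglyMeasurable
          (kp_cont_E (ep k) t hε).stronglyMeasurable))).aestronglyMeasurable
    · rw [norm_mul, norm_mul, RCLike.norm_conj, Complex.norm_real, Real.norm_of_nonneg hε.le]
      have h1 := Fm_le α (ep k) E hε
      have h2 := kp_le (ep k) t E hε
      have h3 : (0 : ℝ) ≤ 1 / ep k * α.real Set.univ :=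
        mul_nonneg (by positivity) measureReal_nonneg
      gcongr
  have hGi : ∀ k, Integrable (fun E => ep k * ‖Gr T (zk E k) x y‖ ^ 2) (Qw w) := by
    intro k
    have hε := ep_pos' k
    refine Integrable.of_bound (C := ep k * (1 / ep k) ^ 2)
      (gr_meas T hT x y k).aestronglyMeasurable (Eventually.of_forall fun E => ?_)
    rw [Real.norm_of_nonneg (mul_nonneg hε.le (sq_nonneg _))]
    have h1 := Pool.Agent.H304.Z987.Gr_le T hT (zk E k) x y (by rw [zk_re_im]; exact hε)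
    rw [zk_re_im] at h1
    gcongr
  have hLle : ∀ k, L k ≤ ∫ E, ep k * ‖Gr T (zk E k) x y‖ ^ 2 ∂(Qw w) := by
    intro k
    have hε := ep_pos' k
    have hP : Integrable (fun E => P t (ep k) E) (Qw w) := (P_intQ t _ hε).mono_measure (Qw_le hw)
    have hG := hGi k
    have e1 : L k = ∫ E, (2 * n * (((ep k : ℂ) * (Fm mp (ep k) E *
      (starRingEnd ℂ) (kp (ep k) t E))).re - ((ep k : ℂ) * (Fm mn (ep k) E *
      (starRingEnd ℂ) (kp (ep k) t E))).re) / 4 - n ^ 2 * P t (ep k) E) ∂(Qw w) := by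
      have i1 := (hI mp k).re
      have i2 := (hI mn k).re
      have g1 : (∫ E, (ep k : ℂ) * (Fm mp (ep k) E *
          (starRingEnd ℂ) (kp (ep k) t E)) ∂(Qw w)).re = ∫ E, ((ep k : ℂ) * (Fm mp (ep k) E *
          (starRingEnd ℂ) (kp (ep k) t E))).re ∂(Qw w) := (integral_re (hI mp k)).symm
      have g2 : (∫ E, (ep k : ℂ) * (Fm mn (ep k) E *
          (starRingEnd ℂ) (kp (ep k) t E)) ∂(Qw w)).re = ∫ E, ((ep k : ℂ) * (Fm mn (ep k) E *
          (starRingEnd ℂ) (kp (ep k) t E))).re ∂(Qw w) := (integral_re (hI mn k)).symm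
      rw [hL]
      simp only
      rw [g1, g2]
      exact (int_aux (Qw w) _ _ _ _ _ i1 i2 hP).symm
    rw [e1]
    refine integral_mono ?_ hG fun E => ?_
    · exact ((((hI mp k).re.sub (hI mn k).re).const_mul (2 * n)).div_const 4).sub (hP.const_mul _)
    · simp only
      have h1 := pol T hT x y mp mn hp hn E k
      have h2 := kp_sq (ep k) t E hε
      rw [← h2, ← Complex.sub_re, ← mul_sub, ← sub_mul, ← h1]
      obtain ⟨G, hG'⟩ : ∃ G, G = Gr T (zk E k) x y := ⟨_, rfl⟩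
      obtain ⟨q, hq⟩ : ∃ q, q = kp (ep k) t E := ⟨_, rfl⟩
      rw [← hG', ← hq]
      have h3 : 0 ≤ ‖G - (n : ℂ) * q‖ ^ 2 := sq_nonneg _
      have h4 : ‖G - (n : ℂ) * q‖ ^ 2 = ‖G‖ ^ 2 - 2 * n * (G * (starRingEnd ℂ) q).re +
          n ^ 2 * ‖q‖ ^ 2 := by
        rw [Complex.sq_norm, Complex.sq_norm, Complex.sq_norm, Complex.normSq_apply,
          Complex.normSq_apply, Complex.normSq_apply]
        simp
        ring
      have h5 : ((ep k : ℂ) * (4 * G * (starRingEnd ℂ) q)).re =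
          4 * (ep k * (G * (starRingEnd ℂ) q).re) := by
        have : (ep k : ℂ) * (4 * G * (starRingEnd ℂ) q) =
            ((4 * ep k : ℝ) : ℂ) * (G * (starRingEnd ℂ) q) := by
          push_cast
          ring
        rw [this, Complex.re_ofReal_mul]
        ring
      rw [h5]
      have h6 : 0 ≤ ep k * (‖G‖ ^ 2 - 2 * n * (G * (starRingEnd ℂ) q).re + n ^ 2 * ‖q‖ ^ 2) := by
        rw [← h4]
        positivity
      nlinarith [h6]
  -- conclusion
  have hk : ∀ k, ENNReal.ofReal (L k) ≤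
      ∫⁻ E, ENNReal.ofReal (ep k * ‖Gr T (zk E k) x y‖ ^ 2) ∂(Qw w) := by
    intro k
    have hε := ep_pos' k
    refine (ENNReal.ofReal_le_ofReal (hLle k)).trans ?_
    rw [ofReal_integral_eq_lintegral_ofReal (hGi k)
      (Eventually.of_forall fun E => mul_nonneg hε.le (sq_nonneg _))]
  have hlim := (ENNReal.continuous_ofReal.tendsto _).comp hLlim
  rw [← hlim.liminf_eq]
  exact liminf_le_liminf (Eventually.of_forall hk)

end Pool.Agent.H122.ME
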