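import Pool.Agent.H121.ME.Iface
import Pool.Agent.H717.Z987.Wien

/-! ME-WIENB, first part: the averages of the Borel transforms against one pole, with a weight. -/

set_option autoImplicit false

open scoped BigOperators InnerProductSpace Topology ENNReal
open Filter MeasureTheory

namespace Pool.Agent.H122.ME

open Pool.Agent.TH369.MU (ep zk)
open Pool.Agent.H121.Z987
open Pool.Agent.H121.ME (Qw)
open Pool.Agent.H717.Z987
open Pool.Agent.W883.LL (P P_nonneg P_le P_cauchy P_integral P_integrable P_cont)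

section

variable {w : ℝ → ℝ}

theorem Qw_le (hw : ∀ E, w E ≤ wt E) : Qw w ≤ Q := by
  unfold Qw Q
  exact withDensity_mono (Eventually.of_forall fun E => ENNReal.ofReal_le_ofReal (hw E))

theorem Qw_fin (hw : ∀ E, w E ≤ wt E) : IsFiniteMeasure (Qw w) :=
  ⟨((Qw_le hw) Set.univ).trans_lt (measure_lt_top Q _)⟩

theorem Qw_int (hc : Continuous w) (h0 : ∀ E, 0 ≤ w E) (f : ℝ → ℝ) :
    ∫ E, f E ∂(Qw w) = ∫ E, w E * f E := by
  unfold Qw
  rw [integral_withDensity_eq_integral_toReal_smul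
    (hc.measurable.ennreal_ofReal) (Eventually.of_forall fun _ => ENNReal.ofReal_lt_top)]
  refine integral_congr_ae (Eventually.of_forall fun E => ?_)
  simp only
  rw [ENNReal.toReal_ofReal (h0 _), smul_eq_mul]

/-- the average of one Poisson kernel -/
theorem P_Qw_lim (hc : Continuous w) (h0 : ∀ E, 0 ≤ w E) (hw : ∀ E, w E ≤ wt E) (t : ℝ) :
    Tendsto (fun k => ∫ E, P t (ep k) E ∂(Qw w)) atTop (𝓝 (Real.pi * w t)) := by
  have h1 : ∀ k, ∫ E, P t (ep k) E ∂(Qw w) = ∫ u : ℝ, w (t + ep k * u) * (1 + u ^ 2)⁻¹ := by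
    intro k
    have hε := ep_pos' k
    rw [Qw_int hc h0]
    have e1 := integral_add_left_eq_self (μ := (volume : Measure ℝ))
      (fun E => w E * P t (ep k) E) t
    rw [← e1]
    have e2 := Measure.integral_comp_mul_left (fun E => w (t + E) * P t (ep k) (t + E)) (ep k)
    rw [abs_of_pos (inv_pos.2 hε), smul_eq_mul] at e2
    have e3 : ∫ E, w (t + E) * P t (ep k) (t + E) =
        ep k * ∫ x : ℝ, w (t + ep k * x) * P t (ep k) (t + ep k * x) := by
      rw [e2, ← mul_assoc, mul_inv_cancel₀ hε.ne', one_mul]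
    rw [e3, ← integral_const_mul]
    refine integral_congr_ae (Eventually.of_forall fun u => ?_)
    simp only
    unfold P
    have h2 : (t + ep k * u - t) ^ 2 + ep k ^ 2 = ep k ^ 2 * (1 + u ^ 2) := by ring
    rw [h2]
    have h3 : (1 + u ^ 2) ≠ 0 := by positivity
    field_simp
  simp_rw [h1]
  have h2 : Real.pi * w t = ∫ u : ℝ, w t * (1 + u ^ 2)⁻¹ := by
    rw [integral_const_mul, integral_univ_inv_one_add_sq]
    ring
  rw [h2]
  refine tendsto_integral_of_dominated_convergence (fun u => (1 + u ^ 2)⁻¹) (fun k => ?_)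
    integrable_inv_one_add_sq (fun k => Eventually.of_forall fun u => ?_)
    (Eventually.of_forall fun u => ?_)
  · refine Continuous.aestronglyMeasurable ?_
    refine Continuous.mul (hc.comp (by fun_prop)) (Continuous.inv₀ (by fun_prop) fun u => ?_)
    positivity
  · have h3 : w (t + ep k * u) ≤ 1 := (hw _).trans (wt_le _)
    have h4 : (0 : ℝ) ≤ (1 + u ^ 2)⁻¹ := by positivity
    rw [Real.norm_of_nonneg (mul_nonneg (h0 _) h4)]
    nlinarith
  · refine Tendsto.mul_const _ ?_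
    have h3 : Tendsto (fun k => t + ep k * u) atTop (𝓝 t) := by
      have := (ep_lim.mul_const u).const_add t
      simpa using this
    exact (hc.tendsto t).comp h3

/-- the average of the norm of the kernel -/
theorem nrm_int (ε t t' : ℝ) (hε : 0 < ε) :
    Integrable (fun E => ‖(ε : ℂ) * (kp ε t E * (starRingEnd ℂ) (kp ε t' E))‖) Q :=
  (ka_int ε t t' hε).norm

theorem nrm_le (ε t t' : ℝ) (hε : 0 < ε) :
    ∫ E, ‖(ε : ℂ) * (kp ε t E * (starRingEnd ℂ) (kp ε t' E))‖ ∂Q ≤ Real.pi := by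
  calc ∫ E, ‖(ε : ℂ) * (kp ε t E * (starRingEnd ℂ) (kp ε t' E))‖ ∂Q
      ≤ ∫ E, (P t ε E + P t' ε E) / 2 ∂Q := by
        refine integral_mono (ka_int ε t t' hε).norm
          (((P_intQ t ε hε).add (P_intQ t' ε hε)).div_const 2) fun E => ka_aux ε t t' E hε
    _ = ((∫ E, P t ε E ∂Q) + ∫ E, P t' ε E ∂Q) / 2 := by
        rw [integral_div, integral_add (P_intQ t ε hε) (P_intQ t' ε hε)]
    _ ≤ Real.pi := by
        have h1 := P_Q_le t ε hε
        have h2 := P_Q_le t' ε hε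
        linarith

theorem nrm_off (ε t t' : ℝ) (hε : 0 < ε) (h : t ≠ t') :
    ∫ E, ‖(ε : ℂ) * (kp ε t E * (starRingEnd ℂ) (kp ε t' E))‖ ∂Q ≤
      2 * Real.pi * Real.sqrt ε / |t - t'| := by
  have hd : 0 < |t - t'| := abs_pos.2 (sub_ne_zero.2 h)
  have hs : 0 < Real.sqrt ε := Real.sqrt_pos.2 hε
  have hss : Real.sqrt ε * Real.sqrt ε = ε := Real.mul_self_sqrt hε.le
  -- `ε |t - z|⁻¹ ≤ √ε (P + 1) / 2`
  have h1 : ∀ s E : ℝ, ε * ‖kp ε s E‖ ≤ Real.sqrt ε * ((P s ε E + 1) / 2) := by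
    intro s E
    have e1 := kp_sq ε s E hε
    obtain ⟨u, hu⟩ : ∃ u, u = ‖kp ε s E‖ := ⟨_, rfl⟩
    rw [← hu] at e1 ⊢
    rw [← e1]
    have e2 : ε * u = Real.sqrt ε * (Real.sqrt ε * u) := by rw [← mul_assoc, hss]
    rw [e2]
    refine mul_le_mul_of_nonneg_left ?_ hs.le
    have e3 : ε * u ^ 2 = (Real.sqrt ε * u) ^ 2 := by rw [mul_pow, sq (Real.sqrt ε), hss]
    rw [e3]
    nlinarith [sq_nonneg (Real.sqrt ε * u - 1)]
  have h2 : ∀ E : ℝ, ‖(ε : ℂ) * (kp ε t E * (starRingEnd ℂ) (kp ε t' E))‖ ≤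
      |t - t'|⁻¹ * (Real.sqrt ε * ((P t ε E + 1) / 2) + Real.sqrt ε * ((P t' ε E + 1) / 2)) := by
    intro E
    have hk1 := kp_ne ε t E hε
    have hk2 := kp_ne ε t' E hε
    have e1 : ((t - t' : ℝ) : ℂ) * (kp ε t E * kp ε t' E) = kp ε t' E - kp ε t E := by
      unfold kp
      push_cast
      field_simp
      ring
    have e2 : |t - t'| * (‖kp ε t E‖ * ‖kp ε t' E‖) ≤ ‖kp ε t E‖ + ‖kp ε t' E‖ := by
      have := congrArg norm e1
      rw [norm_mul, norm_mul, Complex.norm_real, Real.norm_eq_abs] at this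
      rw [this, add_comm]
      exact norm_sub_le _ _
    rw [norm_mul, norm_mul, RCLike.norm_conj, Complex.norm_real, Real.norm_of_nonneg hε.le]
    rw [inv_mul_eq_div, le_div_iff₀ hd]
    calc ε * (‖kp ε t E‖ * ‖kp ε t' E‖) * |t - t'|
        = ε * (|t - t'| * (‖kp ε t E‖ * ‖kp ε t' E‖)) := by ring
      _ ≤ ε * (‖kp ε t E‖ + ‖kp ε t' E‖) := mul_le_mul_of_nonneg_left e2 hε.le
      _ = ε * ‖kp ε t E‖ + ε * ‖kp ε t' E‖ := by ring
      _ ≤ _ := add_le_add (h1 t E) (h1 t' E)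
  have i1 : ∀ s : ℝ, Integrable (fun E => Real.sqrt ε * ((P s ε E + 1) / 2)) Q := fun s =>
    (((P_intQ s ε hε).add (integrable_const _)).div_const 2).const_mul _
  have e3 : ∀ s : ℝ, ∫ E, Real.sqrt ε * ((P s ε E + 1) / 2) ∂Q ≤ Real.sqrt ε * Real.pi := by
    intro s
    rw [integral_const_mul, integral_div, integral_add (P_intQ s ε hε) (integrable_const _),
      integral_const, smul_eq_mul, mul_one, Q_real]
    have := P_Q_le s ε hε
    refine mul_le_mul_of_nonneg_left ?_ hs.le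
    linarith
  calc ∫ E, ‖(ε : ℂ) * (kp ε t E * (starRingEnd ℂ) (kp ε t' E))‖ ∂Q
      ≤ ∫ E, |t - t'|⁻¹ * (Real.sqrt ε * ((P t ε E + 1) / 2) +
          Real.sqrt ε * ((P t' ε E + 1) / 2)) ∂Q :=
        integral_mono (ka_int ε t t' hε).norm (((i1 t).add (i1 t')).const_mul _) h2
    _ = |t - t'|⁻¹ * ((∫ E, Real.sqrt ε * ((P t ε E + 1) / 2) ∂Q) +
          ∫ E, Real.sqrt ε * ((P t' ε E + 1) / 2) ∂Q) := by
        rw [integral_const_mul, integral_add (i1 t) (i1 t')]
    _ ≤ |t - t'|⁻¹ * (Real.sqrt ε * Real.pi + Real.sqrt ε * Real.pi) := by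
        refine mul_le_mul_of_nonneg_left (add_le_add (e3 t) (e3 t')) (inv_nonneg.2 hd.le)
    _ = 2 * Real.pi * Real.sqrt ε / |t - t'| := by ring

/-- the kernel with the weight `w` -/
noncomputable def kw (w : ℝ → ℝ) (ε t t' : ℝ) : ℂ :=
  ∫ E, (ε : ℂ) * (kp ε t E * (starRingEnd ℂ) (kp ε t' E)) ∂(Qw w)

theorem kw_nrm (hw : ∀ E, w E ≤ wt E) (ε t t' : ℝ) (hε : 0 < ε) :
    ‖kw w ε t t'‖ ≤ ∫ E, ‖(ε : ℂ) * (kp ε t E * (starRingEnd ℂ) (kp ε t' E))‖ ∂Q := by
  unfold kw
  refine (norm_integral_le_integral_norm _).trans ?_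
  exact integral_mono_measure (Qw_le hw) (Eventually.of_forall fun E => norm_nonneg _)
    (ka_int ε t t' hε).norm

theorem kw_le (hw : ∀ E, w E ≤ wt E) (ε t t' : ℝ) (hε : 0 < ε) : ‖kw w ε t t'‖ ≤ Real.pi :=
  (kw_nrm hw ε t t' hε).trans (nrm_le ε t t' hε)

theorem kw_diag (ε t : ℝ) (hε : 0 < ε) : kw w ε t t = ((∫ E, P t ε E ∂(Qw w) : ℝ) : ℂ) := by
  rw [← integral_complex_ofReal]
  unfold kw
  refine integral_congr_ae (Eventually.of_forall fun E => ?_)
  simp only
  rw [← kp_sq ε t E hε, Complex.mul_conj']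
  push_cast
  ring

theorem kw_lim (hc : Continuous w) (h0 : ∀ E, 0 ≤ w E) (hw : ∀ E, w E ≤ wt E) (t s : ℝ) :
    Tendsto (fun k => kw w (ep k) s t) atTop
      (𝓝 (Set.indicator {t} (fun _ => ((Real.pi * w t : ℝ) : ℂ)) s)) := by
  by_cases h : s = t
  · subst h
    rw [Set.indicator_of_mem (Set.mem_singleton _)]
    simp_rw [fun k => kw_diag (w := w) (ep k) s (ep_pos' k)]
    exact (Complex.continuous_ofReal.tendsto _).comp (P_Qw_lim hc h0 hw s)
  · rw [Set.indicator_of_notMem (by simpa using h)]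
    rw [tendsto_zero_iff_norm_tendsto_zero]
    have h2 : Tendsto (fun k => 2 * Real.pi * Real.sqrt (ep k) / |s - t|) atTop (𝓝 0) := by
      have : Tendsto (fun k => 2 * Real.pi * Real.sqrt (ep k) / |s - t|) atTop
          (𝓝 (2 * Real.pi * Real.sqrt 0 / |s - t|)) :=
        ((((Real.continuous_sqrt.tendsto 0).comp ep_lim).const_mul _).div_const _)
      simpa using this
    exact squeeze_zero (fun k => norm_nonneg _) (fun k =>
      (kw_nrm hw (ep k) s t (ep_pos' k)).trans (nrm_off (ep k) s t (ep_pos' k) h)) h2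

theorem kw_meas (hw : ∀ E, w E ≤ wt E) (ε t : ℝ) (hε : 0 < ε) :
    StronglyMeasurable fun s : ℝ => kw w ε s t := by
  have := Qw_fin hw
  unfold kw
  have h : StronglyMeasurable fun p : ℝ × ℝ =>
      (ε : ℂ) * (kp ε p.1 p.2 * (starRingEnd ℂ) (kp ε t p.2)) := by
    refine Continuous.stronglyMeasurable ?_
    have c1 : Continuous fun p : ℝ × ℝ => kp ε p.1 p.2 := kp_cont2 ε hε
    have c2 : Continuous fun p : ℝ × ℝ => kp ε t p.2 := (kp_cont_E ε t hε).comp continuous_snd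
    exact continuous_const.mul (c1.mul (Complex.continuous_conj.comp c2))
  exact h.integral_prod_right

/-- the averages against one pole -/
theorem one_pole (hc : Continuous w) (h0 : ∀ E, 0 ≤ w E) (hw : ∀ E, w E ≤ wt E)
    (μ : Measure ℝ) [IsFiniteMeasure μ] (t : ℝ) :
    Tendsto (fun k => ∫ E, (ep k : ℂ) * (Fm μ (ep k) E * (starRingEnd ℂ) (kp (ep k) t E)) ∂(Qw w))
      atTop (𝓝 ((Real.pi * w t * μ.real {t} : ℝ) : ℂ)) := by
  have := Qw_fin hw
  have h1 : ∀ k, ∫ E, (ep k : ℂ) * (Fm μ (ep k) E * (starRingEnd ℂ) (kp (ep k) t E)) ∂(Qw w) =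
      ∫ s, kw w (ep k) s t ∂μ := by
    intro k
    have hε := ep_pos' k
    obtain ⟨ε, he⟩ : ∃ ε, ε = ep k := ⟨_, rfl⟩
    rw [← he] at hε ⊢
    have h2 : ∀ E, (ε : ℂ) * (Fm μ ε E * (starRingEnd ℂ) (kp ε t E)) =
        ∫ s, (ε : ℂ) * (kp ε s E * (starRingEnd ℂ) (kp ε t E)) ∂μ := by
      intro E
      rw [integral_const_mul, integral_mul_const]
      rfl
    simp_rw [h2]
    rw [integral_integral_swap]
    · rfl
    · refine Integrable.of_bound (C := ε * (1 / ε * (1 / ε))) ?_ (Eventually.of_forall fun p => ?_)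
      · refine Continuous.aestronglyMeasurable ?_
        have c1 : Continuous fun p : ℝ × ℝ => kp ε p.2 p.1 :=
          (kp_cont2 ε hε).comp continuous_swap
        have c2 : Continuous fun p : ℝ × ℝ => kp ε t p.1 := (kp_cont_E ε t hε).comp continuous_fst
        exact continuous_const.mul (c1.mul (Complex.continuous_conj.comp c2))
      · simp only [Function.uncurry]
        rw [norm_mul, norm_mul, RCLike.norm_conj, Complex.norm_real, Real.norm_of_nonneg hε.le]
        have h1 := kp_le ε p.2 p.1 hε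
        have h2 := kp_le ε t p.1 hε
        gcongr
  simp_rw [h1]
  have h3 : ((Real.pi * w t * μ.real {t} : ℝ) : ℂ) =
      ∫ s, Set.indicator {t} (fun _ => ((Real.pi * w t : ℝ) : ℂ)) s ∂μ := by
    rw [integral_indicator (measurableSet_singleton t), setIntegral_const, Complex.real_smul]
    push_cast
    ring
  rw [h3]
  exact tendsto_integral_of_dominated_convergence (fun _ => Real.pi)
    (fun k => (kw_meas hw (ep k) t (ep_pos' k)).aestronglyMeasurable) (integrable_const _)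
    (fun k => Eventually.of_forall fun s => kw_le hw _ _ _ (ep_pos' k))
    (Eventually.of_forall fun s => kw_lim hc h0 hw t s)

end

end Pool.Agent.H122.ME
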